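import Pool.Agent.W668.Uni.Stmts

set_option autoImplicit false

open Set MeasureTheory
open scoped ContDiff Topology

namespace Pool.Agent.W174.Uni

open Pool.Agent.W668.Uni

noncomputable section

/-- the change of coordinates -/
def Ph (p : ℝ × ℝ) : ℝ × ℝ :=
  (Real.sin p.1 * Real.cos p.2, Real.arctan (Real.tan p.1 * Real.sin p.2))

/-- the derivative of `Ph` -/
def dPh (p : ℝ × ℝ) : ℝ × ℝ →L[ℝ] ℝ × ℝ :=
  (Matrix.toLin (.finTwoProd ℝ) (.finTwoProd ℝ)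
    !![Real.cos p.1 * Real.cos p.2, -(Real.sin p.1 * Real.sin p.2);
      (1 / (1 + (Real.tan p.1 * Real.sin p.2) ^ 2)) * (1 / Real.cos p.1 ^ 2 * Real.sin p.2),
      (1 / (1 + (Real.tan p.1 * Real.sin p.2) ^ 2)) * (Real.tan p.1 * Real.cos p.2)]).toContinuousLinearMap

theorem hasFDerivAt_Ph (p : ℝ × ℝ) (hp : Real.cos p.1 ≠ 0) : HasFDerivAt Ph (dPh p) p := by
  unfold dPh
  rw [Matrix.toLin_finTwoProd_toContinuousLinearMap]
  have h1 := ((Real.hasDerivAt_sin p.1).comp_hasFDerivAt p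
      (hasFDerivAt_fst (𝕜 := ℝ) (E := ℝ) (F := ℝ) (p := p))).mul
      ((Real.hasDerivAt_cos p.2).comp_hasFDerivAt p
        (hasFDerivAt_snd (𝕜 := ℝ) (E := ℝ) (F := ℝ) (p := p)))
  have h2 := ((Real.hasDerivAt_tan hp).comp_hasFDerivAt p
      (hasFDerivAt_fst (𝕜 := ℝ) (E := ℝ) (F := ℝ) (p := p))).mul
      ((Real.hasDerivAt_sin p.2).comp_hasFDerivAt p
        (hasFDerivAt_snd (𝕜 := ℝ) (E := ℝ) (F := ℝ) (p := p)))
  have h3 := h1.prodMk h2.arctan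
  convert! h3 using 1
  ext
  · simp [smul_smul]; ring
  · simp [smul_smul]; ring_nf; simp
  · simp [smul_smul]
  · simp [smul_smul]

theorem det_dPh (p : ℝ × ℝ) (hp : 0 < Real.cos p.1) : (dPh p).det = Real.sin p.1 := by
  unfold dPh
  simp only [LinearMap.det_toContinuousLinearMap, LinearMap.det_toLin, Matrix.det_fin_two_of]
  rw [Real.tan_eq_sin_div_cos]
  set s := Real.sin p.1
  set c := Real.cos p.1
  set S := Real.sin p.2
  set C := Real.cos p.2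
  have hsc : s ^ 2 + c ^ 2 = 1 := Real.sin_sq_add_cos_sq p.1
  have hSC : S ^ 2 + C ^ 2 = 1 := Real.sin_sq_add_cos_sq p.2
  have hpos : 0 < c ^ 2 + s ^ 2 * S ^ 2 := by positivity
  have e1 : 1 + (s / c * S) ^ 2 = (c ^ 2 + s ^ 2 * S ^ 2) / c ^ 2 := by
    field_simp
  rw [e1]
  have e2 : c * C * (1 / ((c ^ 2 + s ^ 2 * S ^ 2) / c ^ 2) * (s / c * C)) -
      -(s * S) * (1 / ((c ^ 2 + s ^ 2 * S ^ 2) / c ^ 2) * (1 / c ^ 2 * S)) =
      s * (c ^ 2 * C ^ 2 + S ^ 2) / (c ^ 2 + s ^ 2 * S ^ 2) := by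
    field_simp
    ring
  rw [e2]
  have e3 : c ^ 2 * C ^ 2 + S ^ 2 = c ^ 2 + s ^ 2 * S ^ 2 := by
    have : C ^ 2 = 1 - S ^ 2 := by linarith
    have h2 : s ^ 2 = 1 - c ^ 2 := by linarith
    rw [this, h2]; ring
  rw [e3]
  field_simp

/-- the open square -/
def sq : Set (ℝ × ℝ) := Ioo 0 (Real.pi / 2) ×ˢ Ioo 0 (Real.pi / 2)

theorem sig_Ph (φ θ : ℝ) (hφ : φ ∈ Ioo 0 (Real.pi / 2)) :
    sig (Real.sin φ * Real.cos θ) (Real.arctan (Real.tan φ * Real.sin θ)) = Real.sin φ := by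
  have hc : 0 < Real.cos φ := Real.cos_pos_of_mem_Ioo ⟨by linarith [hφ.1, Real.pi_pos], hφ.2⟩
  have hs : 0 < Real.sin φ := Real.sin_pos_of_pos_of_lt_pi hφ.1 (by linarith [hφ.2, Real.pi_pos])
  unfold sig
  rw [← Real.sqrt_sq hs.le]
  congr 1
  rw [Real.sqrt_sq hs.le]
  have h1 := Real.cos_sq_arctan (Real.tan φ * Real.sin θ)
  have h2 := Real.sin_sq_add_cos_sq (Real.arctan (Real.tan φ * Real.sin θ))
  have h3 : Real.sin (Real.arctan (Real.tan φ * Real.sin θ)) ^ 2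
      = 1 - 1 / (1 + (Real.tan φ * Real.sin θ) ^ 2) := by rw [← h1]; linarith
  rw [h3, h1, Real.tan_eq_sin_div_cos]
  have hsc : Real.sin φ ^ 2 + Real.cos φ ^ 2 = 1 := Real.sin_sq_add_cos_sq φ
  have hSC : Real.sin θ ^ 2 + Real.cos θ ^ 2 = 1 := Real.sin_sq_add_cos_sq θ
  set s := Real.sin φ
  set c := Real.cos φ
  set S := Real.sin θ
  set C := Real.cos θ
  have hpos : 0 < c ^ 2 + s ^ 2 * S ^ 2 := by positivity
  have e1 : 1 + (s / c * S) ^ 2 = (c ^ 2 + s ^ 2 * S ^ 2) / c ^ 2 := by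
    field_simp
  rw [e1]
  have e3 : c ^ 2 * C ^ 2 + S ^ 2 = c ^ 2 + s ^ 2 * S ^ 2 := by
    have : C ^ 2 = 1 - S ^ 2 := by linarith
    have h2 : s ^ 2 = 1 - c ^ 2 := by linarith
    rw [this, h2]; ring
  have e4 : (s * C) ^ 2 * (1 / ((c ^ 2 + s ^ 2 * S ^ 2) / c ^ 2)) +
      (1 - 1 / ((c ^ 2 + s ^ 2 * S ^ 2) / c ^ 2)) =
      s ^ 2 * (c ^ 2 * C ^ 2 + S ^ 2) / (c ^ 2 + s ^ 2 * S ^ 2) := by
    field_simp
    ring
  rw [e4, e3]
  field_simp

theorem bet_Ph (φ θ : ℝ) (hφ : φ ∈ Ioo 0 (Real.pi / 2)) (hθ : θ ∈ Ioo 0 (Real.pi / 2)) :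
    bet (Real.sin φ * Real.cos θ) (Real.arctan (Real.tan φ * Real.sin θ)) = θ := by
  have hs : 0 < Real.sin φ := Real.sin_pos_of_pos_of_lt_pi hφ.1 (by linarith [hφ.2, Real.pi_pos])
  unfold bet
  rw [sig_Ph φ θ hφ, mul_div_cancel_left₀ _ hs.ne']
  exact Real.arccos_cos hθ.1.le (by linarith [hθ.2, Real.pi_pos])

theorem injOn_Ph : InjOn Ph sq := by
  rintro ⟨φ, θ⟩ ⟨h1, h2⟩ ⟨φ', θ'⟩ ⟨h1', h2'⟩ h
  simp only [Ph, Prod.mk.injEq] at h h1 h2 h1' h2'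
  have e1 := sig_Ph φ θ h1
  have e1' := sig_Ph φ' θ' h1'
  have e2 := bet_Ph φ θ h1 h2
  have e2' := bet_Ph φ' θ' h1' h2'
  rw [h.1, h.2] at e1 e2
  have hs : Real.sin φ = Real.sin φ' := e1.symm.trans e1'
  have hφ : φ = φ' := Real.injOn_sin ⟨by linarith [h1.1, Real.pi_pos], h1.2.le⟩
    ⟨by linarith [h1'.1, Real.pi_pos], h1'.2.le⟩ hs
  have hθ : θ = θ' := e2.symm.trans e2'
  rw [hφ, hθ]

theorem image_Ph : Ph '' sq = Ioo 0 1 ×ˢ Ioo 0 (Real.pi / 2) := by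
  ext ⟨t, ψ⟩
  constructor
  · rintro ⟨⟨φ, θ⟩, ⟨h1, h2⟩, h⟩
    simp only [Ph, Prod.mk.injEq] at h h1 h2
    have hs : 0 < Real.sin φ := Real.sin_pos_of_pos_of_lt_pi h1.1 (by linarith [h1.2, Real.pi_pos])
    have hs1 : Real.sin φ < 1 := by
      rw [← Real.sin_pi_div_two]
      exact Real.sin_lt_sin_of_lt_of_le_pi_div_two (by linarith [h1.1, Real.pi_pos]) le_rfl h1.2
    have hC : 0 < Real.cos θ := Real.cos_pos_of_mem_Ioo ⟨by linarith [h2.1, Real.pi_pos], h2.2⟩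
    have hc : 0 < Real.cos φ := Real.cos_pos_of_mem_Ioo ⟨by linarith [h1.1, Real.pi_pos], h1.2⟩
    have hS : 0 < Real.sin θ := Real.sin_pos_of_pos_of_lt_pi h2.1 (by linarith [h2.2, Real.pi_pos])
    have hT : 0 < Real.tan φ := Real.tan_pos_of_pos_of_lt_pi_div_two h1.1 h1.2
    rw [← h.1, ← h.2]
    refine ⟨⟨by positivity, ?_⟩, ⟨?_, Real.arctan_lt_pi_div_two _⟩⟩
    · show Real.sin φ * Real.cos θ < 1
      nlinarith [Real.cos_le_one θ]
    · rw [← Real.arctan_zero]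
      exact Real.arctan_strictMono (by positivity)
  · rintro ⟨⟨h1, h2⟩, ⟨h3, h4⟩⟩
    simp only at h1 h2 h3 h4
    have hs : 0 < Real.sin ψ := Real.sin_pos_of_pos_of_lt_pi h3 (by linarith [Real.pi_pos])
    have hc : 0 < Real.cos ψ := Real.cos_pos_of_mem_Ioo ⟨by linarith, h4⟩
    have hsc := Real.sin_sq_add_cos_sq ψ
    have ht2 : 0 < 1 - t ^ 2 := by nlinarith
    have hσ2 : sig t ψ ^ 2 = t ^ 2 * Real.cos ψ ^ 2 + Real.sin ψ ^ 2 :=
      Real.sq_sqrt (by positivity)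
    have hσ : 0 < sig t ψ := Real.sqrt_pos.2 (by positivity)
    have hA : 1 - sig t ψ ^ 2 = Real.cos ψ ^ 2 * (1 - t ^ 2) := by rw [hσ2]; nlinarith
    have hB : sig t ψ ^ 2 - t ^ 2 = Real.sin ψ ^ 2 * (1 - t ^ 2) := by
      rw [hσ2]
      have : Real.cos ψ ^ 2 = 1 - Real.sin ψ ^ 2 := by linarith
      rw [this]; ring
    have hσ1 : sig t ψ < 1 := by
      have : 0 < 1 - sig t ψ ^ 2 := by rw [hA]; positivity
      nlinarith
    have htσ : t < sig t ψ := by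
      have : 0 < sig t ψ ^ 2 - t ^ 2 := by rw [hB]; positivity
      nlinarith
    have hq0 : 0 < t / sig t ψ := by positivity
    have hq1 : t / sig t ψ < 1 := by rw [div_lt_one hσ]; exact htσ
    refine ⟨(Real.arcsin (sig t ψ), Real.arccos (t / sig t ψ)), ⟨⟨?_, ?_⟩, ⟨?_, ?_⟩⟩, ?_⟩
    · exact Real.arcsin_pos.2 hσ
    · exact Real.arcsin_lt_pi_div_two.2 hσ1
    · exact Real.arccos_pos.2 hq1
    · exact Real.arccos_lt_pi_div_two.2 hq0
    · simp only [Ph, Prod.mk.injEq]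
      rw [Real.sin_arcsin (by linarith) hσ1.le, Real.cos_arccos (by linarith) hq1.le,
        Real.tan_arcsin, Real.sin_arccos]
      refine ⟨by field_simp, ?_⟩
      have r1 : Real.sqrt (1 - sig t ψ ^ 2) = Real.cos ψ * Real.sqrt (1 - t ^ 2) := by
        rw [hA, Real.sqrt_mul (by positivity), Real.sqrt_sq hc.le]
      have r2 : Real.sqrt (1 - (t / sig t ψ) ^ 2) = Real.sin ψ * Real.sqrt (1 - t ^ 2) / sig t ψ := by
        have : 1 - (t / sig t ψ) ^ 2 = (Real.sin ψ ^ 2 * (1 - t ^ 2)) / sig t ψ ^ 2 := by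
          rw [← hB]; field_simp
        rw [this, Real.sqrt_div (by positivity), Real.sqrt_mul (by positivity),
          Real.sqrt_sq hs.le, Real.sqrt_sq hσ.le]
      have hr : 0 < Real.sqrt (1 - t ^ 2) := Real.sqrt_pos.2 ht2
      rw [r1, r2]
      have : sig t ψ / (Real.cos ψ * Real.sqrt (1 - t ^ 2)) *
          (Real.sin ψ * Real.sqrt (1 - t ^ 2) / sig t ψ) = Real.tan ψ := by
        rw [Real.tan_eq_sin_div_cos]; field_simp
      rw [this]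
      exact Real.arctan_tan (by linarith) h4

theorem ii_eq (F : ℝ → ℝ → ℝ) (a b : ℝ) (ha : 0 ≤ a) (hb : 0 ≤ b) :
    ∫ x in (0:ℝ)..a, ∫ y in (0:ℝ)..b, F x y = ∫ x in Ioo 0 a, ∫ y in Ioo 0 b, F x y := by
  rw [intervalIntegral.integral_of_le ha, integral_Ioc_eq_integral_Ioo]
  simp_rw [intervalIntegral.integral_of_le hb, integral_Ioc_eq_integral_Ioo]

theorem sph : P_sph := by
  intro H hH
  have hpi : (0:ℝ) ≤ Real.pi / 2 := by positivity
  have hms : MeasurableSet sq := measurableSet_Ioo.prod measurableSet_Ioo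
  let g : ℝ × ℝ → ℝ := fun q => H (Real.arcsin (sig q.1 q.2)) (bet q.1 q.2)
  have hcos : ∀ p ∈ sq, 0 < Real.cos p.1 := fun p hp =>
    Real.cos_pos_of_mem_Ioo ⟨by linarith [hp.1.1, Real.pi_pos], hp.1.2⟩
  have hf' : ∀ p ∈ sq, HasFDerivWithinAt Ph (dPh p) sq p := fun p hp =>
    (hasFDerivAt_Ph p (hcos p hp).ne').hasFDerivWithinAt
  have hdet : ∀ p ∈ sq, |(dPh p).det| • g (Ph p) = H p.1 p.2 * Real.sin p.1 := by
    rintro ⟨φ, θ⟩ hp
    have hs : 0 < Real.sin φ :=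
      Real.sin_pos_of_pos_of_lt_pi hp.1.1 (by linarith [hp.1.2, Real.pi_pos])
    rw [det_dPh _ (hcos _ hp)]
    simp only [g, Ph]
    rw [sig_Ph φ θ hp.1, bet_Ph φ θ hp.1 hp.2, abs_of_pos hs, smul_eq_mul, mul_comm,
      Real.arcsin_sin (by linarith [hp.1.1, Real.pi_pos]) hp.1.2.le]
  have hc : Continuous (fun p : ℝ × ℝ => H p.1 p.2 * Real.sin p.1) := by fun_prop
  have hint : IntegrableOn (fun p : ℝ × ℝ => H p.1 p.2 * Real.sin p.1) sq := by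
    have hK : IsCompact (Icc (0:ℝ) (Real.pi / 2) ×ˢ Icc (0:ℝ) (Real.pi / 2)) :=
      isCompact_Icc.prod isCompact_Icc
    exact (hc.continuousOn.integrableOn_compact hK).mono_set
      (prod_mono Ioo_subset_Icc_self Ioo_subset_Icc_self)
  have hint2 : IntegrableOn g (Ioo 0 1 ×ˢ Ioo 0 (Real.pi / 2)) := by
    rw [← image_Ph, integrableOn_image_iff_integrableOn_abs_det_fderiv_smul volume hms hf' injOn_Ph]
    exact hint.congr_fun (fun p hp => (hdet p hp).symm) hms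
  rw [ii_eq (fun φ t => H φ t * Real.sin φ) _ _ hpi hpi,
    ii_eq (fun t ψ => H (Real.arcsin (sig t ψ)) (bet t ψ)) _ _ zero_le_one hpi]
  have e1 := setIntegral_prod (μ := (volume : Measure ℝ)) (ν := (volume : Measure ℝ))
    (fun p : ℝ × ℝ => H p.1 p.2 * Real.sin p.1) hint
  have e2 := setIntegral_prod (μ := (volume : Measure ℝ)) (ν := (volume : Measure ℝ)) g hint2
  have e3 := integral_image_eq_integral_abs_det_fderiv_smul volume hms hf' injOn_Ph g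
  rw [image_Ph] at e3
  have e4 : ∫ p in sq, |(dPh p).det| • g (Ph p) = ∫ p in sq, H p.1 p.2 * Real.sin p.1 :=
    setIntegral_congr_fun hms hdet
  rw [e4] at e3
  exact e1.symm.trans (e3.symm.trans e2)

end

end Pool.Agent.W174.Uni
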